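import Pool.Agent.H46.VIO.Stmts
import Pool.Agent.H2.FEX.OMB

/-!
# LPF: few triples with known small primes
-/

set_option autoImplicit false

namespace Pool.VIO

open Finset Pool.Agent.H98.ABCR Pool.SHA Pool.ABY

namespace LPF

open Classical in
/-- unknown large primes of the coordinates other than `i` -/
noncomputable def unk (X η : ℝ) (K : Finset ℕ) (i : Fin 3) (v : ℕ × ℕ) : Finset ℕ :=
  ((univ.erase i).biUnion (fun s => (coord v s).primeFactors)).filter
    (fun q => q ∉ K ∧ X ^ η < (q : ℝ))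

lemma mem_unk {X η : ℝ} {K : Finset ℕ} {i : Fin 3} {v : ℕ × ℕ} {q : ℕ} :
    q ∈ unk X η K i v ↔ (∃ s, s ≠ i ∧ q ∈ (coord v s).primeFactors) ∧ q ∉ K ∧ X ^ η < (q : ℝ) := by
  simp only [unk, mem_filter, mem_biUnion, mem_erase, mem_univ, and_true]

lemma coord_dvd (v : ℕ × ℕ) (s : Fin 3) : coord v s ∣ nn v := by
  unfold coord nn
  fin_cases s
  · exact Dvd.intro (v.2 * (v.1 + v.2)) (by simp; ring)
  · exact Dvd.intro (v.1 * (v.1 + v.2)) (by simp; ring)
  · exact Dvd.intro (v.1 * v.2) (by simp; ring)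

lemma coord_pos {v : ℕ × ℕ} (h : IsTri v) (s : Fin 3) : 0 < coord v s := by
  obtain ⟨h1, h2, -⟩ := h
  unfold coord
  fin_cases s
  · simpa using h1
  · simpa using h2
  · simp; omega

lemma nn_pos {v : ℕ × ℕ} (h : IsTri v) : 0 < nn v := by
  obtain ⟨h1, h2, -⟩ := h
  unfold nn
  positivity

lemma pf_sub {v : ℕ × ℕ} (h : IsTri v) (s : Fin 3) :
    (coord v s).primeFactors ⊆ (nn v).primeFactors :=
  Nat.primeFactors_mono (coord_dvd v s) (nn_pos h).ne'

lemma unk_sub {X η : ℝ} {K : Finset ℕ} {i : Fin 3} {v : ℕ × ℕ} (h : IsTri v) :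
    unk X η K i v ⊆ (nn v).primeFactors := by
  intro q hq
  obtain ⟨⟨s, -, hs⟩, -⟩ := mem_unk.1 hq
  exact pf_sub h s hs

lemma unk_card {X η : ℝ} {K : Finset ℕ} {i : Fin 3} {v : ℕ × ℕ} (h : IsTri v)
    (hR : (RR v : ℝ) ≤ X) (hX : 1 < X) : η * ((unk X η K i v).card : ℝ) ≤ 1 := by
  have h1 : (∏ q ∈ unk X η K i v, q : ℕ) ≤ RR v := by
    unfold RR rad
    exact Finset.prod_le_prod_of_subset_of_one_le' (unk_sub h)
      (fun q hq _ => (Nat.prime_of_mem_primeFactors hq).one_lt.le)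
  have h2 : (X ^ η) ^ (unk X η K i v).card ≤ X := by
    calc (X ^ η) ^ (unk X η K i v).card = ∏ _q ∈ unk X η K i v, X ^ η := by rw [prod_const]
      _ ≤ ∏ q ∈ unk X η K i v, (q : ℝ) := by
          refine Finset.prod_le_prod (fun q _ => by positivity) (fun q hq => ?_)
          exact (mem_unk.1 hq).2.2.le
      _ = ((∏ q ∈ unk X η K i v, q : ℕ) : ℝ) := by push_cast; rfl
      _ ≤ (RR v : ℝ) := by exact_mod_cast h1
      _ ≤ X := hR
  have hX0 : (0 : ℝ) ≤ X := by linarith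
  rw [← Real.rpow_natCast, ← Real.rpow_mul hX0] at h2
  have h3 : X ^ (η * ((unk X η K i v).card : ℝ)) ≤ X ^ (1 : ℝ) := by rwa [Real.rpow_one]
  exact (Real.rpow_le_rpow_left_iff hX).1 h3

lemma kl_mono {K K' : Finset ℕ} (h : K ⊆ K') (n : ℕ) : kl K n ≤ kl K' n := by
  unfold kl
  exact Finset.sum_le_sum_of_subset_of_nonneg h (fun q _ _ => by positivity)

lemma fam_mono {X h0 c η lam lam' : ℝ} {K : Finset ℕ} {i : Fin 3} {v : ℕ × ℕ}
    (h : Fam X h0 c η lam K i v) (hl : lam ≤ lam') (hh0 : 0 ≤ h0) : Fam X h0 c η lam' K i v :=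
  { h with lg := h.lg.trans (mul_le_mul_of_nonneg_right hl hh0) }

lemma fam_insert {X h0 c η lam : ℝ} {K : Finset ℕ} {i : Fin 3} {v : ℕ × ℕ} {p : ℕ}
    (h : Fam X h0 c η lam K i v) (hp : p ∈ unk X η K i v) :
    Fam X h0 c η lam (insert p K) i v where
  tri := h.tri
  rad := h.rad
  lo := h.lo
  up := h.up
  sub := Finset.insert_subset (unk_sub h.tri hp) h.sub
  wt := h.wt.trans (kl_mono (Finset.subset_insert _ _) _)
  lg := by
    refine le_trans ?_ h.lg
    unfold lig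
    refine Finset.sum_le_sum (fun s _ => ?_)
    refine Finset.sum_le_sum_of_subset_of_nonneg ?_ (fun q _ _ => by positivity)
    intro q hq
    simp only [mem_filter, mem_insert, not_or] at hq ⊢
    exact ⟨hq.1, hq.2.1.2, hq.2.2⟩

lemma unk_insert {X η : ℝ} {K : Finset ℕ} {i : Fin 3} {v : ℕ × ℕ} {p : ℕ} :
    unk X η (insert p K) i v = (unk X η K i v).erase p := by
  ext q
  simp only [mem_erase, mem_unk, mem_insert, not_or]
  tauto

lemma log_eq {n : ℕ} : Real.log n = ∑ q ∈ n.primeFactors, (n.factorization q : ℝ) * Real.log q := by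
  rw [Real.log_nat_eq_sum_factorization, Finsupp.sum, Nat.support_factorization]

/-- logarithm of a coordinate all of whose large primes are known -/
lemma log_coord_le {X η : ℝ} {K : Finset ℕ} {i : Fin 3} {v : ℕ × ℕ}
    (hu : unk X η K i v = ∅) {s : Fin 3} (hs : s ≠ i) :
    Real.log (coord v s) ≤ kl K (coord v s) +
      ∑ q ∈ (coord v s).primeFactors.filter (fun q => q ∉ K ∧ (q : ℝ) ≤ X ^ η),
        ((coord v s).factorization q : ℝ) * Real.log q := by
  classical
  rw [log_eq, ← Finset.sum_filter_add_sum_filter_not (coord v s).primeFactors (fun q => q ∈ K)]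
  refine add_le_add ?_ ?_
  · unfold kl
    refine Finset.sum_le_sum_of_subset_of_nonneg ?_ (fun q _ _ => by positivity)
    intro q hq
    exact (mem_filter.1 hq).2
  · refine Finset.sum_le_sum_of_subset_of_nonneg ?_ (fun q _ _ => by positivity)
    intro q hq
    obtain ⟨hq1, hq2⟩ := mem_filter.1 hq
    refine mem_filter.2 ⟨hq1, hq2, ?_⟩
    by_contra hc
    have : q ∈ unk X η K i v := mem_unk.2 ⟨⟨s, hs, hq1⟩, hq2, not_le.1 hc⟩
    rw [hu] at this
    simp at this

lemma mass_ge {X h0 c η lam : ℝ} {K : Finset ℕ} {i : Fin 3} {v : ℕ × ℕ}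
    (h : Fam X h0 c η lam K i v) (hu : unk X η K i v = ∅) (hc : 0 < c) (hl : lam ≤ c / 2)
    (h4 : 4 / c ≤ h0) : (2 + c / 8) * hh v ≤ mass K v := by
  have hh0 : 0 < h0 := lt_of_lt_of_le (by positivity) h4
  have hv1 : (0 : ℝ) < v.1 := by exact_mod_cast h.tri.1
  have hv2 : (0 : ℝ) < v.2 := by exact_mod_cast h.tri.2.1
  have e1 : ∑ s ∈ univ.erase i, Real.log (coord v s) ≤
      ∑ s ∈ univ.erase i, kl K (coord v s) + lam * h0 := by
    refine le_trans (Finset.sum_le_sum (fun s hs =>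
      log_coord_le hu (Finset.ne_of_mem_erase hs))) ?_
    rw [Finset.sum_add_distrib]
    have := h.lg
    unfold lig at this
    linarith
  have e2 : Real.log (coord v i) + ∑ s ∈ univ.erase i, Real.log (coord v s) =
      Real.log v.1 + Real.log v.2 + hh v := by
    rw [Finset.add_sum_erase _ (fun s => Real.log (coord v s)) (mem_univ i), Fin.sum_univ_three]
    simp [coord, hh]
  have e3 : kl K (coord v i) + ∑ s ∈ univ.erase i, kl K (coord v s) =
      ∑ s : Fin 3, kl K (coord v s) :=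
    Finset.add_sum_erase _ (fun s => kl K (coord v s)) (mem_univ i)
  have e4 : Real.log v.1 + Real.log v.2 =
      Real.log ((min v.1 v.2 : ℕ) : ℝ) + Real.log ((max v.1 v.2 : ℕ) : ℝ) := by
    rcases le_total v.1 v.2 with h' | h'
    · rw [min_eq_left h', max_eq_right h']
    · rw [min_eq_right h', max_eq_left h', add_comm]
  have e5 : Real.log (coord v i) ≤ Real.log 2 + Real.log ((max v.1 v.2 : ℕ) : ℝ) := by
    have hm : 0 < max v.1 v.2 := lt_of_lt_of_le h.tri.1 (le_max_left _ _)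
    have hm' : (0 : ℝ) < ((max v.1 v.2 : ℕ) : ℝ) := by exact_mod_cast hm
    rw [← Real.log_mul (by norm_num) hm'.ne']
    have hci : (0 : ℝ) < coord v i := by exact_mod_cast coord_pos h.tri i
    refine Real.log_le_log hci ?_
    have : coord v i ≤ 2 * max v.1 v.2 := by
      have a1 : v.1 ≤ max v.1 v.2 := le_max_left _ _
      have a2 : v.2 ≤ max v.1 v.2 := le_max_right _ _
      unfold coord
      fin_cases i
      · simp; omega
      · simp; omega
      · simp; omega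
    exact_mod_cast this
  have e6 : Real.log 2 ≤ c / 4 * h0 := by
    have : (1 : ℝ) ≤ c / 4 * h0 := by
      have := mul_le_mul_of_nonneg_left h4 (by positivity : (0 : ℝ) ≤ c / 4)
      have e : c / 4 * (4 / c) = 1 := by field_simp
      linarith
    have := Real.log_two_lt_d9
    linarith
  have e7 : c / 8 * hh v ≤ c / 4 * h0 := by
    have := mul_le_mul_of_nonneg_left h.up (by positivity : (0 : ℝ) ≤ c / 8)
    linarith
  have e8 : lam * h0 ≤ c / 2 * h0 := mul_le_mul_of_nonneg_right hl hh0.le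
  have e9 := h.wt
  unfold mass
  linarith

/-- the claim for at most `k` unknown large primes -/
def PK (c η : ℝ) (k : ℕ) : Prop := ∀ ε : ℝ, 0 < ε → ∃ lam κ0 X0 : ℝ,
  0 < lam ∧ 1 ≤ κ0 ∧ 3 ≤ X0 ∧ ∀ (X h0 : ℝ) (K : Finset ℕ) (i : Fin 3) (F : Finset (ℕ × ℕ)),
    X0 ≤ X → κ0 * Real.log X ≤ h0 →
    (∀ v ∈ F, Fam X h0 c η lam K i v ∧ (unk X η K i v).card ≤ k) → (F.card : ℝ) ≤ X ^ ε

lemma log_ge_one {X : ℝ} (hX : 3 ≤ X) : 1 ≤ Real.log X := by
  rw [Real.le_log_iff_exp_le (by linarith)]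
  exact le_trans Real.exp_one_lt_d9.le (by linarith)

lemma pk_zero (hG : S_GPD) {c η : ℝ} (hc : 0 < c) (hc1 : c ≤ 1) : PK c η 0 := by
  intro ε hε
  obtain ⟨C, hC, hgap⟩ := hG (c / 8) (by positivity) (by linarith)
  obtain ⟨C', hC', homb⟩ := Pool.FEX.omb_thm C (ε / 2) hC (by positivity)
  refine ⟨c / 2, 4 / c, max 3 (C' ^ (2 / ε)), by positivity, ?_, le_max_left _ _, ?_⟩
  · rw [le_div_iff₀ hc]
    linarith
  intro X h0 K i F hX hh0 hF
  have hX3 : 3 ≤ X := (le_max_left _ _).trans hX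
  have hX0 : 0 < X := by linarith
  have hL := log_ge_one hX3
  rcases F.eq_empty_or_nonempty with hE | ⟨v, hv⟩
  · rw [hE]
    simp
    positivity
  have h4 : 4 / c ≤ h0 := le_trans (le_mul_of_one_le_right (by positivity) hL) hh0
  have hh0p : 0 < h0 := lt_of_lt_of_le (by positivity) h4
  have hKp : ∀ q ∈ K, q.Prime := fun q hq =>
    Nat.prime_of_mem_primeFactors ((hF v hv).1.sub hq)
  have h1 := hgap h0 K F hh0p hKp (fun w hw => by
    obtain ⟨hw1, hw2⟩ := hF w hw
    refine ⟨hw1.tri, hw1.lo, hw1.up, ?_⟩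
    exact mass_ge hw1 (Finset.card_eq_zero.1 (Nat.le_zero.1 hw2)) hc le_rfl h4)
  have h2 : K.card ≤ om (RR v) := by
    have e : (RR v).primeFactors = (nn v).primeFactors := by
      unfold RR rad
      exact Nat.primeFactors_prod (fun p hp => Nat.prime_of_mem_primeFactors hp)
    unfold om
    rw [e]
    exact Finset.card_le_card (hF v hv).1.sub
  have hR1 : 1 ≤ RR v := by
    unfold RR rad
    exact Nat.one_le_iff_ne_zero.2 (Finset.prod_ne_zero_iff.2
      (fun p hp => (Nat.prime_of_mem_primeFactors hp).ne_zero))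
  calc (F.card : ℝ) ≤ C ^ (K.card + 1) := h1
    _ ≤ C ^ (om (RR v) + 1) := pow_le_pow_right₀ hC (by omega)
    _ ≤ C' * (RR v : ℝ) ^ (ε / 2) := homb (RR v) hR1
    _ ≤ X ^ (ε / 2) * X ^ (ε / 2) := by
        refine mul_le_mul ?_ ?_ (by positivity) (by positivity)
        · have : C' ^ (2 / ε) ≤ X := (le_max_right _ _).trans hX
          have h3 := Real.rpow_le_rpow (by positivity) this (by positivity : 0 ≤ ε / 2)
          rw [← Real.rpow_mul (by linarith)] at h3
          have e : 2 / ε * (ε / 2) = 1 := by field_simp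
          rwa [e, Real.rpow_one] at h3
        · exact Real.rpow_le_rpow (by positivity) (hF v hv).1.rad (by positivity)
    _ = X ^ ε := by
        rw [← Real.rpow_add hX0]
        congr 1
        ring

/-- the sets of the members of `G` are pairwise disjoint -/
def Dj {α : Type} (U : α → Finset ℕ) (G : Finset α) : Prop :=
  ∀ v ∈ G, ∀ v' ∈ G, v ≠ v' → Disjoint (U v) (U v')

/-- maximal subfamily with pairwise disjoint sets -/
lemma exists_maximal {α : Type} [DecidableEq α] (F : Finset α) (U : α → Finset ℕ)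
    (hU : ∀ v ∈ F, (U v).Nonempty) : ∃ G ⊆ F, Dj U G ∧
      ∀ v ∈ F, ∃ p ∈ U v, p ∈ G.biUnion U := by
  classical
  obtain ⟨G, hG, hmax⟩ := (F.powerset.filter (fun G => Dj U G)).exists_max_image Finset.card
    ⟨∅, mem_filter.2 ⟨mem_powerset.2 (Finset.empty_subset _),
      fun v hv => absurd hv (Finset.notMem_empty v)⟩⟩
  obtain ⟨hG1, hG2⟩ := mem_filter.1 hG
  refine ⟨G, mem_powerset.1 hG1, hG2, fun v hv => ?_⟩
  by_contra hc
  push Not at hc
  have hvG : v ∉ G := by
    intro hvG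
    obtain ⟨p, hp⟩ := hU v hv
    exact hc p hp (mem_biUnion.2 ⟨v, hvG, hp⟩)
  have hdis : ∀ w ∈ G, Disjoint (U v) (U w) := by
    intro w hw
    rw [Finset.disjoint_left]
    intro p hp hpw
    exact hc p hp (mem_biUnion.2 ⟨w, hw, hpw⟩)
  have hDj : Dj U (insert v G) := by
    intro a ha b hb hab
    rcases mem_insert.1 ha with ha' | ha'
    · rcases mem_insert.1 hb with hb' | hb'
      · exact absurd (ha'.trans hb'.symm) hab
      · rw [ha']
        exact hdis b hb'
    · rcases mem_insert.1 hb with hb' | hb'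
      · rw [hb']
        exact (hdis a ha').symm
      · exact hG2 a ha' b hb' hab
  have h1 := hmax (insert v G) (mem_filter.2 ⟨mem_powerset.2
    (Finset.insert_subset hv (mem_powerset.1 hG1)), hDj⟩)
  rw [Finset.card_insert_of_notMem hvG] at h1
  omega

lemma pk_succ (hT : S_TSX) {c η : ℝ} (hc : 0 < c) (hc1 : c ≤ 1) (hη : 0 < η) (hη1 : η ≤ 1)
    {k : ℕ} (hk : PK c η k) : PK c η (k + 1) := by
  classical
  intro ε hε
  obtain ⟨lam1, κ1, X1, hlam1, hκ1, hX1, hTS⟩ := hT c η (ε / 4) hc hc1 hη hη1 (by positivity)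
  obtain ⟨lam2, κ2, X2, hlam2, hκ2, hX2, hPK⟩ := hk (ε / 4) (by positivity)
  refine ⟨min lam1 lam2, max κ1 κ2, max (max X1 X2) ((1 + 1 / η) ^ (2 / ε)), lt_min hlam1 hlam2,
    hκ1.trans (le_max_left _ _), (hX1.trans (le_max_left _ _)).trans (le_max_left _ _), ?_⟩
  intro X h0 K i F hX hh0 hF
  have hXX : max X1 X2 ≤ X := (le_max_left _ _).trans hX
  have hX1' : X1 ≤ X := (le_max_left _ _).trans hXX
  have hX2' : X2 ≤ X := (le_max_right _ _).trans hXX
  have hX3 : 3 ≤ X := hX1.trans hX1'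
  have hX0 : 0 < X := by linarith
  have hL := log_ge_one hX3
  have hL0 : 0 ≤ Real.log X := by linarith
  have hh1 : κ1 * Real.log X ≤ h0 :=
    (mul_le_mul_of_nonneg_right (le_max_left _ _) hL0).trans hh0
  have hh2 : κ2 * Real.log X ≤ h0 :=
    (mul_le_mul_of_nonneg_right (le_max_right _ _) hL0).trans hh0
  have hh00 : 0 ≤ h0 := le_trans (by positivity) hh1
  set F0 := F.filter (fun v => unk X η K i v = ∅) with hF0
  set F1 := F.filter (fun v => ¬ unk X η K i v = ∅) with hF1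
  have hcard : F0.card + F1.card = F.card := Finset.card_filter_add_card_filter_not _
  have hc0 : (F0.card : ℝ) ≤ X ^ (ε / 4) := by
    refine hPK X h0 K i F0 hX2' hh2 (fun v hv => ?_)
    obtain ⟨hv1, hv2⟩ := mem_filter.1 hv
    exact ⟨fam_mono (hF v hv1).1 (min_le_right _ _) hh00, by rw [hv2]; simp⟩
  obtain ⟨G, hGF, hGd, hGm⟩ := exists_maximal F1 (fun v => unk X η K i v) (fun v hv =>
    Finset.nonempty_iff_ne_empty.2 (mem_filter.1 hv).2)
  have hG : (G.card : ℝ) ≤ X ^ (ε / 4) := by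
    refine hTS X h0 K i G hX1' hh1 (fun v hv => ?_) (fun v hv => ?_)
    · exact fam_mono (hF v (mem_filter.1 (hGF hv)).1).1 (min_le_left _ _) hh00
    · obtain ⟨q, hq⟩ := Finset.nonempty_iff_ne_empty.2 (mem_filter.1 (hGF hv)).2
      obtain ⟨⟨s, hs, hqs⟩, hqK, hqX⟩ := mem_unk.1 hq
      refine ⟨s, hs, q, Nat.prime_of_mem_primeFactors hqs, hqK, Nat.dvd_of_mem_primeFactors hqs, ?_⟩
      intro v' hv' hne s' hs' hdvd
      have htri : IsTri v' := (hF v' (mem_filter.1 (hGF hv')).1).1.tri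
      have hq' : q ∈ unk X η K i v' := mem_unk.2 ⟨⟨s', hs', Nat.mem_primeFactors.2
        ⟨Nat.prime_of_mem_primeFactors hqs, hdvd, (coord_pos htri s').ne'⟩⟩, hqK, hqX⟩
      exact Finset.disjoint_left.1 (hGd v hv v' hv' hne.symm) hq hq'
  set B := G.biUnion (fun v => unk X η K i v) with hB
  have hBc : (B.card : ℝ) ≤ X ^ (ε / 4) * (1 / η) := by
    have h1 : (B.card : ℝ) ≤ ∑ v ∈ G, ((unk X η K i v).card : ℝ) := by
      exact_mod_cast Finset.card_biUnion_le
    have h2 : ∀ v ∈ G, ((unk X η K i v).card : ℝ) ≤ 1 / η := by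
      intro v hv
      have hf := (hF v (mem_filter.1 (hGF hv)).1).1
      have := unk_card (η := η) (K := K) (i := i) hf.tri hf.rad (by linarith)
      rw [le_div_iff₀ hη]
      linarith
    calc (B.card : ℝ) ≤ ∑ v ∈ G, ((unk X η K i v).card : ℝ) := h1
      _ ≤ ∑ _v ∈ G, (1 / η) := Finset.sum_le_sum h2
      _ = (G.card : ℝ) * (1 / η) := by rw [Finset.sum_const, nsmul_eq_mul]
      _ ≤ X ^ (ε / 4) * (1 / η) := mul_le_mul_of_nonneg_right hG (by positivity)
  have hsub : F1 ⊆ B.biUnion (fun p => F1.filter (fun v => p ∈ unk X η K i v)) := by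
    intro v hv
    obtain ⟨p, hp, hpB⟩ := hGm v hv
    exact mem_biUnion.2 ⟨p, hpB, mem_filter.2 ⟨hv, hp⟩⟩
  have hfib : ∀ p ∈ B, ((F1.filter (fun v => p ∈ unk X η K i v)).card : ℝ) ≤ X ^ (ε / 4) := by
    intro p _
    refine hPK X h0 (insert p K) i _ hX2' hh2 (fun v hv => ?_)
    obtain ⟨hv1, hv2⟩ := mem_filter.1 hv
    obtain ⟨hf1, hf2⟩ := hF v (mem_filter.1 hv1).1
    refine ⟨fam_insert (fam_mono hf1 (min_le_right _ _) hh00) hv2, ?_⟩
    rw [unk_insert, Finset.card_erase_of_mem hv2]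
    omega
  have hc1' : (F1.card : ℝ) ≤ X ^ (ε / 4) * (1 / η) * X ^ (ε / 4) := by
    calc (F1.card : ℝ) ≤ ((B.biUnion (fun p => F1.filter (fun v => p ∈ unk X η K i v))).card : ℝ) := by
          exact_mod_cast Finset.card_le_card hsub
      _ ≤ ∑ p ∈ B, ((F1.filter (fun v => p ∈ unk X η K i v)).card : ℝ) := by
          exact_mod_cast Finset.card_biUnion_le
      _ ≤ ∑ _p ∈ B, X ^ (ε / 4) := Finset.sum_le_sum hfib
      _ = (B.card : ℝ) * X ^ (ε / 4) := by rw [Finset.sum_const, nsmul_eq_mul]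
      _ ≤ X ^ (ε / 4) * (1 / η) * X ^ (ε / 4) :=
          mul_le_mul_of_nonneg_right hBc (by positivity)
  have hone : (1 : ℝ) ≤ X ^ (ε / 4) := Real.one_le_rpow (by linarith) (by positivity)
  have hprod : X ^ (ε / 4) * X ^ (ε / 4) = X ^ (ε / 2) := by
    rw [← Real.rpow_add hX0]
    congr 1
    ring
  have hprod2 : X ^ (ε / 2) * X ^ (ε / 2) = X ^ ε := by
    rw [← Real.rpow_add hX0]
    congr 1
    ring
  have hbig : 1 + 1 / η ≤ X ^ (ε / 2) := by
    have h1 : (1 + 1 / η) ^ (2 / ε) ≤ X := (le_max_right _ _).trans hX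
    have h3 := Real.rpow_le_rpow (by positivity) h1 (by positivity : 0 ≤ ε / 2)
    rw [← Real.rpow_mul (by positivity)] at h3
    have e : 2 / ε * (ε / 2) = 1 := by field_simp
    rwa [e, Real.rpow_one] at h3
  have hsum : (F.card : ℝ) = F0.card + F1.card := by exact_mod_cast hcard.symm
  calc (F.card : ℝ) = F0.card + F1.card := hsum
    _ ≤ X ^ (ε / 4) + X ^ (ε / 4) * (1 / η) * X ^ (ε / 4) := add_le_add hc0 hc1'
    _ ≤ X ^ (ε / 2) + (1 / η) * X ^ (ε / 2) := by
        refine add_le_add ?_ (le_of_eq ?_)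
        · rw [← hprod]
          nlinarith
        · rw [← hprod]
          ring
    _ = (1 + 1 / η) * X ^ (ε / 2) := by ring
    _ ≤ X ^ (ε / 2) * X ^ (ε / 2) := mul_le_mul_of_nonneg_right hbig (by positivity)
    _ = X ^ ε := hprod2

end LPF

open LPF in
theorem lpf_thm (hT : S_TSX) (hG : S_GPD) : S_LPF := by
  intro c η ε hc hc1 hη hη1 hε
  have hk : ∀ k : ℕ, PK c η k := by
    intro k
    induction k with
    | zero => exact pk_zero hG hc hc1
    | succ k ih => exact pk_succ hT hc hc1 hη hη1 ih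
  obtain ⟨lam, κ0, X0, h1, h2, h3, h4⟩ := hk ⌊1 / η⌋₊ ε hε
  refine ⟨lam, κ0, X0, h1, h2, h3, fun X h0 K i F hX hh0 hF => ?_⟩
  refine h4 X h0 K i F hX hh0 (fun v hv => ⟨hF v hv, ?_⟩)
  have hf := hF v hv
  have := unk_card (η := η) (K := K) (i := i) hf.tri hf.rad (by linarith)
  refine Nat.le_floor ?_
  rw [le_div_iff₀ hη]
  linarith

end Pool.VIO
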